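import Pool.Agent.KIL.StmtsB

/-!
# Block KIL, row VBR: a normal round (helper59)
-/

set_option autoImplicit false

open MeasureTheory ProbabilityTheory Function Filter

open scoped ENNReal BigOperators Topology NNReal Matrix

noncomputable section

namespace Pool.Agent.KIL.H59

open Pool.Agent.ANP (Cfg Att gm)
open Pool.Agent.LE.QF (HJ HM gG LL dC)

/-! ### the cut off -/

theorem cu_mono {x y : ℝ} (h : x ≤ y) : cu x ≤ cu y := by
  unfold cu
  have h1 : max (1 - y) 0 ≤ max (1 - x) 0 := max_le_max (by linarith) le_rfl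
  have h2 : (0 : ℝ) ≤ max (1 - y) 0 := le_max_right _ _
  have h3 := pow_le_pow_left₀ h2 h1 3
  linarith

theorem cu_nonneg {x : ℝ} (h : 0 ≤ x) : 0 ≤ cu x := by
  unfold cu
  have h1 : max (1 - x) 0 ≤ 1 := max_le (by linarith) zero_le_one
  have h2 : (0 : ℝ) ≤ max (1 - x) 0 := le_max_right _ _
  have h3 := pow_le_one₀ h2 h1 (n := 3)
  linarith

theorem cu_le_one (x : ℝ) : cu x ≤ 1 := by
  unfold cu
  have h2 : (0 : ℝ) ≤ max (1 - x) 0 := le_max_right _ _
  have h3 := pow_nonneg h2 3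
  linarith

theorem cu_cont : Continuous cu := by
  unfold cu
  exact continuous_const.sub (((continuous_const.sub continuous_id).max continuous_const).pow 3)

/-! ### the shares of the current -/

section shares

variable {X : Type} [Fintype X] [DecidableEq X] {κ : X → ℝ} {G : Matrix X X ℂ} {o : X}

theorem aa_nonneg (hκ : ∀ v, 0 ≤ κ v) (hg : 0 < gam κ G o) (v : X) : 0 ≤ aa κ G o v :=
  div_nonneg (mul_nonneg (hκ v) (sq_nonneg _)) hg.le

theorem aa_sum (hg : 0 < gam κ G o) : ∑ v ∈ Finset.univ.erase o, aa κ G o v = 1 := by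
  unfold aa
  rw [← Finset.sum_div]
  exact div_self hg.ne'

theorem aa_sum_le (hκ : ∀ v, 0 ≤ κ v) (hg : 0 < gam κ G o) (S : Finset X) (ho : o ∉ S) :
    ∑ v ∈ S, aa κ G o v ≤ 1 := by
  rw [← aa_sum hg]
  refine Finset.sum_le_sum_of_subset_of_nonneg ?_ fun v _ _ => aa_nonneg hκ hg v
  intro v hv
  refine Finset.mem_erase.2 ⟨?_, Finset.mem_univ _⟩
  rintro rfl
  exact ho hv

theorem cut_sum {θ : ℝ → ℝ} {t₀ t₁ ε : ℝ} (hθ : Cut θ t₀ t₁ ε) (hκ : ∀ v, 0 ≤ κ v)
    (hg : 0 < gam κ G o) (S : Finset X) (ho : o ∉ S) :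
    0 ≤ ∑ v ∈ S, θ (aa κ G o v) ∧ ∑ v ∈ S, θ (aa κ G o v) ≤ 1 := by
  constructor
  · exact Finset.sum_nonneg fun v _ => (hθ.bd _ (aa_nonneg hκ hg v)).1
  · exact (Finset.sum_le_sum fun v _ => (hθ.bd _ (aa_nonneg hκ hg v)).2).trans
      (aa_sum_le hκ hg S ho)

theorem yn_eq (θ : ℝ → ℝ) (R K D : Finset X) :
    yn (fun c : D => (c : X)) θ (R \ K) κ G o = ∑ v ∈ R \ (K ∪ D), θ (aa κ G o v) := by
  unfold yn
  refine Finset.sum_congr ?_ fun _ _ => rfl
  ext v
  simp only [Finset.mem_filter, Finset.mem_sdiff, Finset.mem_union, not_or]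
  constructor
  · rintro ⟨⟨h1, h2⟩, h3⟩
    exact ⟨h1, h2, fun h => h3 ⟨v, h⟩ rfl⟩
  · rintro ⟨h1, h2, h3⟩
    refine ⟨⟨h1, h2⟩, ?_⟩
    rintro c rfl
    exact h3 c.2

theorem ym_eq (θ : ℝ → ℝ) (R K D : Finset X) (hD : D ⊆ R \ K) {t₀ t₁ ε : ℝ}
    (hθ : Cut θ t₀ t₁ ε) (hDa : ∀ v ∈ D, t₁ ≤ aa κ G o v) :
    ym (fun c : D => (c : X)) θ (R \ K) κ G o = ∑ v ∈ R \ K, θ (aa κ G o v) := by
  have h0 : ym (fun c : D => (c : X)) θ (R \ K) κ G o =
      (∑ c : D, aa κ G o (c : X)) + yn (fun c : D => (c : X)) θ (R \ K) κ G o := rfl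
  have h2 : (R \ K) \ D = R \ (K ∪ D) := by
    ext v
    simp only [Finset.mem_sdiff, Finset.mem_union, not_or]
    tauto
  have h1 : ∑ c : D, aa κ G o (c : X) = ∑ v ∈ D, θ (aa κ G o v) := by
    rw [Finset.sum_coe_sort D fun v => aa κ G o v]
    exact Finset.sum_congr rfl fun v hv => (hθ.hi _ (hDa v hv)).symm
  rw [h0, yn_eq, ← Finset.sum_sdiff hD, h2, h1, add_comm]

end shares

/-! ### elementary inequalities -/

theorem alg_mono {c c' φ M : ℝ} (h : c' ≤ c) (hφ : φ ≤ M) :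
    (1 - c') * φ + M * c' ≤ (1 - c) * φ + M * c := by
  nlinarith

theorem quad_le {y : ℝ} (h1 : y ≤ 1) : 3 * y - y ^ 2 - 2 ≤ 0 := by
  nlinarith

theorem exp_quad {lam y : ℝ} (hlam : 0 < lam) (h1 : y ≤ 1) :
    Real.exp (lam * (3 * y - y ^ 2 - 2)) ≤ 1 := by
  rw [Real.exp_le_one_iff]
  exact mul_nonpos_of_nonneg_of_nonpos hlam.le (quad_le h1)

theorem m_exp {lam a b S' : ℝ} (hlam : 0 < lam) (hlam1 : lam ≤ 1) (hS : -1 ≤ S')
    (hb : a * b ≤ lam / 20) : Real.exp (-(lam * S' / 20)) / 2 * Real.exp (a * b) ≤ 1 := by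
  rw [div_mul_eq_mul_div, ← Real.exp_add, div_le_one (by norm_num)]
  have h1 : -(lam * S' / 20) + a * b ≤ Real.log 2 := by
    have h2 : (0.6931471803 : ℝ) < Real.log 2 := Real.log_two_gt_d9
    have h3 : -(lam * S') ≤ lam := by nlinarith
    linarith
  calc Real.exp (-(lam * S' / 20) + a * b) ≤ Real.exp (Real.log 2) := Real.exp_le_exp.2 h1
    _ = 2 := Real.exp_log (by norm_num)

theorem end_alg {lam B S' y c c' m : ℝ} (hlam : 0 < lam) (hlam1 : lam ≤ 1) (hB : 1 ≤ B)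
    (hS : -1 ≤ S') (h1 : y ≤ 1) (hc : c' ≤ c)
    (hm : m = Real.exp (-(lam * S' / 20)) / 2) :
    (1 - c') * Real.exp (lam * (3 * y - y ^ 2 - 2) - lam * S' / 20) + 2 * B * c' ≤
      2 * ((1 - c) * (m * Real.exp (lam * (3 * y - y ^ 2 - 2))) + B * c) := by
  have hφ : Real.exp (lam * (3 * y - y ^ 2 - 2) - lam * S' / 20) =
      2 * (m * Real.exp (lam * (3 * y - y ^ 2 - 2))) := by
    rw [hm, sub_eq_add_neg, Real.exp_add]
    ring
  have h4 := exp_quad hlam h1
  have h5 : m ≤ 1 := by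
    have := m_exp (a := 0) (b := 0) hlam hlam1 hS (by linarith [hlam])
    rwa [mul_zero, Real.exp_zero, mul_one, ← hm] at this
  have h6 : 0 < Real.exp (lam * (3 * y - y ^ 2 - 2)) := Real.exp_pos _
  have h7 : m * Real.exp (lam * (3 * y - y ^ 2 - 2)) ≤ 1 :=
    (mul_le_mul_of_nonneg_right h5 h6.le).trans (by linarith)
  have h8 : Real.exp (lam * (3 * y - y ^ 2 - 2) - lam * S' / 20) ≤ 2 * B := by
    rw [hφ]
    linarith
  refine (alg_mono hc h8).trans (le_of_eq ?_)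
  rw [hφ]
  ring

theorem start_alg {lam B S r y c c' m β s : ℝ} (hlam : 0 < lam) (hB : 1 ≤ B)
    (hS : 0 < S) (h1 : y ≤ 1) (hc : c' ≤ c) (hc1 : c' ≤ 1)
    (hm : m = Real.exp (-(lam * (S - r) / 20)) / 2) (hb : β * s ≤ lam * r / 20) :
    2 * ((1 - c') * (m * Real.exp (β * s + lam * (3 * y - y ^ 2 - r / 10 - 2))) + B * c') ≤
      (1 - c) * Real.exp (lam * (3 * y - y ^ 2 - 2) - lam * S / 20) + 2 * B * c := by
  have h2 : 2 * (m * Real.exp (β * s + lam * (3 * y - y ^ 2 - r / 10 - 2))) ≤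
      Real.exp (lam * (3 * y - y ^ 2 - 2) - lam * S / 20) := by
    rw [hm]
    have e : 2 * (Real.exp (-(lam * (S - r) / 20)) / 2 *
        Real.exp (β * s + lam * (3 * y - y ^ 2 - r / 10 - 2))) =
        Real.exp (-(lam * (S - r) / 20) + (β * s + lam * (3 * y - y ^ 2 - r / 10 - 2))) := by
      rw [Real.exp_add (-(lam * (S - r) / 20))]
      ring
    rw [e, Real.exp_le_exp]
    linarith
  have h3 : Real.exp (lam * (3 * y - y ^ 2 - 2) - lam * S / 20) ≤ 2 * B := by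
    have h4 := exp_quad hlam h1
    have h5 : Real.exp (lam * (3 * y - y ^ 2 - 2) - lam * S / 20) ≤
        Real.exp (lam * (3 * y - y ^ 2 - 2)) := by
      rw [Real.exp_le_exp]
      have : 0 ≤ lam * S / 20 := by positivity
      linarith
    linarith
  calc 2 * ((1 - c') * (m * Real.exp (β * s + lam * (3 * y - y ^ 2 - r / 10 - 2))) + B * c')
      = (1 - c') * (2 * (m * Real.exp (β * s + lam * (3 * y - y ^ 2 - r / 10 - 2)))) +
        2 * B * c' := by ring
    _ ≤ (1 - c') * Real.exp (lam * (3 * y - y ^ 2 - 2) - lam * S / 20) + 2 * B * c' := by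
        have := mul_le_mul_of_nonneg_left h2 (by linarith : 0 ≤ 1 - c')
        linarith
    _ ≤ _ := alg_mono hc h3

/-- Row VBR. -/
theorem vbr (hUDR : UdrStmt) (hUGD : UgdStmt) (hRCM : RcmStmt) : VbrStmt := by
  intro ε₀ lam C B hlam hlam1 hC hB hKr X _ _ Y T₀ T P K D Gm kp S r hOk hε hCs hRch hD hr hρr hKS
    hS hRun
  -- the basic facts
  have hs : 0 < P.s := hOk.sR.2
  have hDR : D ⊆ P.R \ K := fun v hv => ((hD v).1 hv).1
  have hoR : P.o ∉ P.R := fun h => Finset.disjoint_left.1 hOk.QR hOk.oQ h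
  have hoK : ∀ K' : Finset X, P.o ∉ P.R \ K' := fun K' h => hoR (Finset.mem_sdiff.1 h).1
  have hoD : P.o ∉ D := fun h => hoK K (hDR h)
  have hst := hRun.st
  have hκ0 : ∀ v, 0 ≤ Y.k T v := by
    intro v
    rw [← hst.2]
    exact (hRun.pos 0 le_rfl hs.le v).1.le
  have hg0 : 0 < gam (Y.k T) (Y.G T) P.o := by
    rw [← hst.1, ← hst.2]
    exact hRun.gm (0, 0) le_rfl hs.le P.o
  have hDa : ∀ v ∈ D, P.t₁ ≤ aa (Y.k T) (Y.G T) P.o v := fun v hv => ((hD v).1 hv).2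
  obtain ⟨ht0, ht01, ht1, hρ, hρ1, hε0, hjL, hθK⟩ := hOk.po2
  have ht1' : 0 < P.t₁ := ht0.trans_le ht01
  have hr1 : r ≤ 1 := by
    rw [hr]
    exact aa_sum_le hκ0 hg0 D hoD
  have hr0 : 0 < r := hρ.trans_le hρr
  have hDc : P.t₁ * D.card ≤ r := by
    rw [hr, mul_comm, ← nsmul_eq_mul]
    exact Finset.card_nsmul_le_sum D _ _ hDa
  have hcard : ((K ∪ D).card : ℝ) ≤ K.card + D.card := by
    exact_mod_cast Finset.card_union_le K D
  have hc2 : P.t₁ * (K ∪ D).card ≤ P.S₀ - (S - r) := by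
    have h1 := mul_le_mul_of_nonneg_left hcard ht1'.le
    nlinarith
  have hc1 : ((K ∪ D).card : ℝ) ≤ P.nK := by
    refine le_trans ?_ hOk.nK
    rw [le_div_iff₀ ht1', mul_comm]
    linarith
  refine ⟨hc1, hc2, ?_⟩
  obtain ⟨u1, u2, u3⟩ := hUDR X Y T₀ T P K D Gm kp hOk.toOk0 hRch hDR hc1 hRun
  obtain ⟨v1, v2, v3⟩ := hRCM X Y T₀ T P K D Gm kp hRch hDR hs hRun
  set β : ℝ := C * P.δ ^ 2 * Real.sqrt (1 / P.t₀ * Real.sqrt (1 / P.t₀ * P.Lc)) / P.g₀ with hβ
  set m : ℝ := Real.exp (-(lam * (S - r) / 20)) / 2 with hm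
  set u : ℝ × (D → ℝ) → ℝ := fun z => P.ur K D (kp z.1) (Gm z) z.1 with hu
  have hNM : 0 ≤ P.NM :=
    add_nonneg (mul_nonneg (add_nonneg (Nat.cast_nonneg _) (Nat.cast_nonneg _))
      (Nat.cast_nonneg _)) (Nat.cast_nonneg _)
  have hbt : 0 ≤ P.bt :=
    mul_nonneg (mul_nonneg (by norm_num) hNM) (pow_nonneg (by norm_num) _)
  have hb0 : 0 ≤ P.bt / (3 * P.s) := div_nonneg hbt (by linarith)
  have hm0 : 0 ≤ m := by positivity
  have hβ0 : 0 ≤ β := by
    refine div_nonneg (mul_nonneg (mul_nonneg (by linarith) (sq_nonneg _)) (Real.sqrt_nonneg _)) ?_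
    exact hOk.pos.2.2.2.1.le
  have hSr : -1 ≤ S - r := by linarith
  have hlr : lam * P.ρ ≤ lam * r := mul_le_mul_of_nonneg_left hρr hlam.le
  have hm1 : m * Real.exp (β * P.s) ≤ 1 :=
    m_exp hlam hlam1 hSr (hCs.trans (by nlinarith))
  have hDc1 : (Fintype.card D : ℝ) ≤ 1 / P.t₀ := by
    rw [Fintype.card_coe, le_div_iff₀ ht0, mul_comm]
    have h1 : P.t₀ * (D.card : ℝ) ≤ P.t₁ * D.card :=
      mul_le_mul_of_nonneg_right ht01 (Nat.cast_nonneg _)
    linarith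
  have key := hKr D X (fun c : D => (c : X)) Gm kp (fun x => (P.mb x).im)
    (fun q c => Gm q c c - P.mb c) (P.R \ K) P.o P.s P.κs P.g₀ P.δ P.Lc P.t₀ P.t₁ P.ε β m P.cut u
    (fun _ => P.bt / (3 * P.s)) hs ht0 ht01 ht1 hε0 hε hOk.cut continuous_const (fun _ => hb0) hDc1
    hOk.e1.1 hOk.e1.2.1 rfl hm0 hm1 (fun q hq0 hq1 => ⟨hRun.jets q hq0 hq1,
      fun v => (hRun.pos q.1 hq0 hq1 v).1.le, hRun.gm q hq0 hq1 P.o, (u1 q hq0 hq1).1,
      (u1 q hq0 hq1).2.1, fun hlt => ⟨(u1 q hq0 hq1).2.2 hlt,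
        (hUGD X Y T₀ T P K D Gm kp q hOk hRch hDR hc1 hRun hq0 hq1 hlt).1⟩⟩)
    (fun c => hDR c.2) (hoK K)
  set F : (D → ℝ) → ℝ := fun V => (1 - cu (u (P.s, V))) *
    (m * Real.exp (lam * (3 * yn (fun c : D => (c : X)) P.cut (P.R \ K) (kp P.s) (Gm (P.s, V)) P.o -
      yn (fun c : D => (c : X)) P.cut (P.R \ K) (kp P.s) (Gm (P.s, V)) P.o ^ 2 - 2))) +
    B * cu (u (P.s, V)) with hF
  have hyn : ∀ V, 0 ≤ yn (fun c : D => (c : X)) P.cut (P.R \ K) (kp P.s) (Gm (P.s, V)) P.o ∧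
      yn (fun c : D => (c : X)) P.cut (P.R \ K) (kp P.s) (Gm (P.s, V)) P.o ≤ 1 := by
    intro V
    rw [yn_eq]
    exact cut_sum hOk.cut (fun v => (hRun.pos P.s hs.le le_rfl v).1.le)
      (hRun.gm (P.s, V) hs.le le_rfl P.o) _ (hoK _)
  have hu0 : ∀ V, 0 ≤ u (P.s, V) := fun V => (u1 (P.s, V) hs.le le_rfl).1
  -- continuity of `F`
  have hucont : Continuous fun V : D → ℝ => u (P.s, V) := by
    rw [continuous_iff_continuousAt]
    intro V
    have h1 : ContinuousAt u (P.s, V) := (u1 (P.s, V) hs.le le_rfl).2.1.continuousAt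
    have h2 : ContinuousAt (fun V : D → ℝ => ((P.s, V) : ℝ × (D → ℝ))) V :=
      (continuous_const.prodMk continuous_id).continuousAt
    exact ContinuousAt.comp (f := fun V : D → ℝ => ((P.s, V) : ℝ × (D → ℝ))) (g := u) h1 h2
  have haac : ∀ v, Continuous fun V : D → ℝ => aa (kp P.s) (Gm (P.s, V)) P.o v := by
    intro v
    unfold aa
    refine Continuous.div ?_ ?_ fun V => (hRun.gm (P.s, V) hs.le le_rfl P.o).ne'
    · exact continuous_const.mul ((v3 v P.o).norm.pow 2)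
    · exact continuous_finsetSum _ fun w _ => continuous_const.mul ((v3 w P.o).norm.pow 2)
  have hync : Continuous fun V : D → ℝ =>
      yn (fun c : D => (c : X)) P.cut (P.R \ K) (kp P.s) (Gm (P.s, V)) P.o :=
    continuous_finsetSum _ fun w _ => hOk.cut.sm.continuous.comp (haac w)
  have hFc : Continuous F := by
    refine Continuous.add ?_ ?_
    · refine (continuous_const.sub (cu_cont.comp hucont)).mul (continuous_const.mul ?_)
      refine Real.continuous_exp.comp (continuous_const.mul ?_)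
      exact ((continuous_const.mul hync).sub (hync.pow 2)).sub continuous_const
    · exact continuous_const.mul (cu_cont.comp hucont)
  have hF0 : ∀ V, 0 ≤ F V := by
    intro V
    have h1 := cu_le_one (u (P.s, V))
    have h2 := cu_nonneg (hu0 V)
    exact add_nonneg (mul_nonneg (by linarith) (mul_nonneg hm0 (Real.exp_pos _).le))
      (mul_nonneg (by linarith) h2)
  have hF1 : ∀ V, F V ≤ m + B := by
    intro V
    have h1 := cu_le_one (u (P.s, V))
    have h2 := cu_nonneg (hu0 V)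
    refine add_le_add ?_ ?_
    · have h3 : m * Real.exp (lam * (3 * yn (fun c : D => (c : X)) P.cut (P.R \ K) (kp P.s)
          (Gm (P.s, V)) P.o -
          yn (fun c : D => (c : X)) P.cut (P.R \ K) (kp P.s) (Gm (P.s, V)) P.o ^ 2 - 2)) ≤ m := by
        refine mul_le_of_le_one_right hm0 ?_
        exact exp_quad hlam (hyn V).2
      refine le_trans (mul_le_of_le_one_left (mul_nonneg hm0 (Real.exp_pos _).le) ?_) h3
      linarith
    · exact mul_le_of_le_one_right (by linarith) h1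
  have hFi : Integrable F (Measure.pi fun _ : D => gaussianReal 0 P.s.toNNReal) := by
    refine Integrable.of_bound hFc.aestronglyMeasurable (m + B) (Filter.Eventually.of_forall ?_)
    intro V
    rw [Real.norm_eq_abs, abs_of_nonneg (hF0 V)]
    exact hF1 V
  have hE : 0 < Real.exp (2 * lam) := Real.exp_pos _
  -- the end of the round
  have hend : ∀ V, P.val lam (2 * B) (S - r) (K ∪ D) (Y.k (T.kl D (ext D V)))
      (Y.G (T.kl D (ext D V))) ≤ Real.exp (2 * lam) * 2 * F V := by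
    intro V
    obtain ⟨e1, e2⟩ := hRun.en V
    have h1 := u3 V
    rw [← e1, ← e2] at h1 ⊢
    set w : ℝ := u (P.s, V) with hw
    have h1' : P.u (K ∪ D) (kp P.s) (Gm (P.s, V)) ≤ w := h1
    set y : ℝ := yn (fun c : D => (c : X)) P.cut (P.R \ K) (kp P.s) (Gm (P.s, V)) P.o with hy
    have hy' : P.y (K ∪ D) (kp P.s) (Gm (P.s, V)) = y := by
      rw [hy, yn_eq]
      rfl
    have hval : P.val lam (2 * B) (S - r) (K ∪ D) (kp P.s) (Gm (P.s, V)) =
        Real.exp (2 * lam) * ((1 - cu (P.u (K ∪ D) (kp P.s) (Gm (P.s, V)))) *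
          Real.exp (lam * (3 * y - y ^ 2 - 2) - lam * (S - r) / 20) +
          2 * B * cu (P.u (K ∪ D) (kp P.s) (Gm (P.s, V)))) := by
      rw [← hy']
      rfl
    have hFV : F V = (1 - cu w) * (m * Real.exp (lam * (3 * y - y ^ 2 - 2))) + B * cu w := rfl
    rw [hval, hFV, mul_assoc (Real.exp (2 * lam)) 2 _]
    exact mul_le_mul_of_nonneg_left (end_alg hlam hlam1 hB hSr (hyn V).2
      (cu_mono h1') hm) hE.le
  -- the start of the round
  have hstart : Real.exp (2 * lam) * 2 * ((1 - cu (u (0, 0))) * (m * Real.exp (β * P.s +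
      lam * (Ph (fun c : D => (c : X)) P.cut (P.R \ K) (kp 0) (Gm (0, 0)) P.o - 2))) +
      B * cu (u (0, 0))) ≤ P.val lam (2 * B) S K (Y.k T) (Y.G T) := by
    have h1 : Ph (fun c : D => (c : X)) P.cut (P.R \ K) (kp 0) (Gm (0, 0)) P.o =
        3 * P.y K (Y.k T) (Y.G T) - P.y K (Y.k T) (Y.G T) ^ 2 - r / 10 := by
      rw [hst.1, hst.2]
      unfold Ph
      rw [ym_eq P.cut P.R K D hDR hOk.cut hDa, Finset.sum_coe_sort D fun v =>
        aa (Y.k T) (Y.G T) P.o v, ← hr]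
      rfl
    have h2 : (0 : ℝ) ≤ P.y K (Y.k T) (Y.G T) ∧ P.y K (Y.k T) (Y.G T) ≤ 1 :=
      cut_sum hOk.cut hκ0 hg0 _ (hoK K)
    have h3 : u (0, 0) ≤ P.u K (Y.k T) (Y.G T) := u2
    rw [h1, mul_assoc]
    refine mul_le_mul_of_nonneg_left ?_ hE.le
    exact start_alg hlam hB hS h2.2 (cu_mono h3) (cu_le_one _) hm (hCs.trans (by linarith))
  have hint : ∫ _t in (0 : ℝ)..P.s, P.bt / (3 * P.s) = P.bt / 3 := by
    rw [intervalIntegral.integral_const, smul_eq_mul, sub_zero]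
    field_simp
  rw [hint] at key
  calc ∫⁻ V, ENNReal.ofReal (P.val lam (2 * B) (S - r) (K ∪ D) (Y.k (T.kl D (ext D V)))
          (Y.G (T.kl D (ext D V)))) ∂(Measure.pi fun _ : D => gaussianReal 0 P.s.toNNReal)
      ≤ ∫⁻ V, ENNReal.ofReal (Real.exp (2 * lam) * 2 * F V)
          ∂(Measure.pi fun _ : D => gaussianReal 0 P.s.toNNReal) :=
        lintegral_mono fun V => ENNReal.ofReal_le_ofReal (hend V)
    _ = ENNReal.ofReal (∫ V, Real.exp (2 * lam) * 2 * F V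
          ∂(Measure.pi fun _ : D => gaussianReal 0 P.s.toNNReal)) := by
        rw [ofReal_integral_eq_lintegral_ofReal (hFi.const_mul _)
          (Filter.Eventually.of_forall fun V => mul_nonneg (by positivity) (hF0 V))]
    _ ≤ _ := by
        refine ENNReal.ofReal_le_ofReal ?_
        rw [integral_const_mul]
        have h1 := mul_le_mul_of_nonneg_left key (by positivity : (0 : ℝ) ≤ Real.exp (2 * lam) * 2)
        refine h1.trans ?_
        rw [mul_add]
        refine add_le_add hstart (le_of_eq ?_)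
        ring

end Pool.Agent.KIL.H59
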